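import Pool.Agent.Helper9.DR.Alg

/-!
# The dual vector of the pattern `b = |()()...()|` in a planar tower

`QQ n = prod_{j < n} (1 - e_{2j})` and `psi n = k_1 ^ n * QQ (n + 1)`.  On a word
`c_{i_1} ... c_{i_n} Ω` (with `k_0 Ω = 0`) the operator `psi n` gives `(-1) ^ n Ω` if all the indices
are odd (the word is `b`), and `0` otherwise.
-/

namespace Pool.Agent.Helper30.Rect

open Module Pool.Agent.Helper9.DR

variable {K : Type*} [Field K] {V : Type*} [AddCommGroup V] [Module K V] (T : Tower K V)

/-- `e_m c_i = c_i e_m` for `m + 2 ≤ i` -/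
lemma ec_low {m i : ℕ} (h : m + 2 ≤ i) : T.e m * T.c i = T.c i * T.e m := by
  induction i, h using Nat.le_induction with
  | base =>
    have h1 : T.c (m + 2) = T.e (m + 2) * T.e (m + 1) * T.c m := by
      rw [mul_assoc, T.e1c, T.e1c]
    have h2 : T.e m * T.e (m + 1) * T.c m = T.c m := by
      rw [T.e_def m, mul_assoc, mul_assoc, ← mul_assoc (T.k m), T.kec, mul_one]
    calc T.e m * T.c (m + 2) = T.e m * T.e (m + 2) * T.e (m + 1) * T.c m := by
          rw [h1]; simp only [mul_assoc]
      _ = T.e (m + 2) * (T.e m * T.e (m + 1) * T.c m) := by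
          rw [← T.ecomm (le_refl (m + 2))]; simp only [mul_assoc]
      _ = T.e (m + 2) * T.c m := by rw [h2]
      _ = (T.e (m + 1 + 1) * T.e (m + 1) * T.e (m + 1 + 1)) * T.c m := by rw [T.eee']
      _ = T.e (m + 2) * T.e (m + 1) * (T.e (m + 2) * T.c m) := by
          simp only [mul_assoc]
      _ = T.c (m + 2) * T.e m := by rw [T.ec (le_refl m), h1]; simp only [mul_assoc]
  | succ i hi ih =>
    rw [← T.e1c i, ← mul_assoc, ← T.ecomm (by omega : m + 2 ≤ i + 1), mul_assoc, ih]
    simp only [mul_assoc]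

/-- `k_i c_{j+2} = c_j k_i` for `i ≤ j` -/
lemma kc_far {i j : ℕ} (h : i ≤ j) : T.k i * T.c (j + 2) = T.c j * T.k i := by
  induction j, h using Nat.le_induction with
  | base => rw [← T.e1c (i + 1), ← mul_assoc, T.ke le_rfl, mul_assoc, T.kcr, mul_one]; rfl
  | succ j hj ih =>
    rw [← T.e1c (j + 2), ← mul_assoc, show j + 2 + 1 = j + 1 + 2 by ring, T.ke (by omega), mul_assoc,
      ih, ← mul_assoc, T.e1c]

/-- the row of ones: capping with `b` is blind to a small arc -/
lemma k1pow_c : ∀ (n i : ℕ), i ≤ 2 * n + 2 → T.k 1 ^ (n + 1) * T.c i = T.k 1 ^ n := by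
  intro n
  induction n with
  | zero =>
    intro i hi
    have : i = 0 ∨ i = 1 ∨ i = 2 := by omega
    rcases this with rfl | rfl | rfl
    · rw [pow_succ, pow_zero, one_mul, T.kcl]
    · rw [pow_succ, pow_zero, one_mul, T.kc]
    · rw [pow_succ, pow_zero, one_mul, T.kcr]
  | succ n ih =>
    intro i hi
    have : i = 0 ∨ i = 1 ∨ i = 2 ∨ ∃ j, i = j + 2 ∧ 1 ≤ j ∧ j ≤ 2 * n + 2 := by
      by_cases h : i ≤ 2
      · omega
      · exact Or.inr (Or.inr (Or.inr ⟨i - 2, by omega, by omega, by omega⟩))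
    rcases this with rfl | rfl | rfl | ⟨j, rfl, h1, h2⟩
    · rw [pow_succ, mul_assoc, T.kcl, mul_one]
    · rw [pow_succ, mul_assoc, T.kc, mul_one]
    · rw [pow_succ, mul_assoc, T.kcr, mul_one]
    · rw [pow_succ, mul_assoc, kc_far T h1, ← mul_assoc, ih j h2, ← pow_succ]

/-- `prod_{j < n} (1 - e_{2j})` -/
def QQ : ℕ → End K V
  | 0 => 1
  | n + 1 => QQ n * (1 - T.e (2 * n))

lemma QQ_succ (n : ℕ) : QQ T (n + 1) = QQ T n * (1 - T.e (2 * n)) := rfl

lemma QQ_low (n : ℕ) : ∀ {i : ℕ}, 2 * n ≤ i → QQ T n * T.c i = T.c i * QQ T n := by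
  induction n with
  | zero => intro i _; simp [QQ]
  | succ n ih =>
    intro i hi
    rw [QQ_succ, mul_assoc, sub_mul, one_mul, ec_low T (by omega : 2 * n + 2 ≤ i), mul_sub,
      ih (by omega), ← mul_assoc, ih (by omega)]
    simp only [mul_sub, mul_one, mul_assoc]

/-- a small arc at an even position is killed -/
lemma QQ_even {n j : ℕ} (h : j ≤ n) : QQ T (n + 1) * T.c (2 * j) = 0 := by
  induction n, h using Nat.le_induction with
  | base => rw [QQ_succ, mul_assoc, sub_mul, one_mul, T.e_c, sub_self, mul_zero]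
  | succ n hn ih =>
    rw [QQ_succ, mul_assoc, sub_mul, one_mul, show 2 * (n + 1) = 2 * n + 2 by ring,
      T.ec (by omega : 2 * j ≤ 2 * n), mul_sub, ← mul_assoc, ih, zero_mul, sub_zero]

/-- a small arc at an odd position is removed with a sign -/
lemma QQ_odd {n j : ℕ} (h : j ≤ n) {L L' : End K V} (h0 : L * T.c (2 * j) = L')
    (h1 : L * T.c (2 * j + 1) = L') (h2 : L * T.c (2 * j + 2) = L') :
    L * QQ T (n + 2) * T.c (2 * j + 1) = -(L' * QQ T (n + 1)) := by
  induction n, h using Nat.le_induction with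
  | base =>
    have e1 : (1 - T.e (2 * j)) * ((1 - T.e (2 * (j + 1))) * T.c (2 * j + 1)) =
        T.c (2 * j + 1) - T.c (2 * j) - T.c (2 * j + 2) + T.c (2 * j + 2) * T.e (2 * j) := by
      have a1 : T.e (2 * (j + 1)) * T.c (2 * j + 1) = T.c (2 * j + 2) := by
        rw [show 2 * (j + 1) = 2 * j + 1 + 1 by ring, T.e1c]
      have a2 : T.e (2 * j) * T.c (2 * j + 1) = T.c (2 * j) := by
        have : T.c (2 * j + 1) = T.e (2 * j + 1) * T.c (2 * j) := (T.e1c _).symm
        rw [this, T.e_def (2 * j), mul_assoc, ← mul_assoc (T.k (2 * j)), T.kec, mul_one]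
      have a3 := ec_low T (le_refl (2 * j + 2))
      simp only [sub_mul, mul_sub, one_mul, a1, a2, a3]
      abel
    rw [show j + 2 = j + 1 + 1 by ring, QQ_succ, QQ_succ]
    calc L * (QQ T j * (1 - T.e (2 * j)) * (1 - T.e (2 * (j + 1)))) * T.c (2 * j + 1)
        = L * (QQ T j * ((1 - T.e (2 * j)) * ((1 - T.e (2 * (j + 1))) * T.c (2 * j + 1)))) := by
          simp only [mul_assoc]
      _ = L * (QQ T j * T.c (2 * j + 1)) - L * (QQ T j * T.c (2 * j)) -
          L * (QQ T j * T.c (2 * j + 2)) + L * (QQ T j * T.c (2 * j + 2)) * T.e (2 * j) := by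
          rw [e1]; simp only [mul_add, mul_sub, mul_assoc]
      _ = -(L' * (QQ T j * (1 - T.e (2 * j)))) := by
          rw [QQ_low T j (by omega), QQ_low T j (by omega), QQ_low T j (by omega), ← mul_assoc,
            ← mul_assoc, ← mul_assoc, h0, h1, h2]
          simp only [mul_sub, mul_one, mul_assoc]
          abel
  | succ n hn ih =>
    rw [show n + 1 + 2 = n + 2 + 1 by ring, QQ_succ]
    calc L * (QQ T (n + 2) * (1 - T.e (2 * (n + 2)))) * T.c (2 * j + 1)
        = L * QQ T (n + 2) * ((1 - T.e (2 * n + 2 + 2)) * T.c (2 * j + 1)) := by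
          simp only [mul_assoc]; rfl
      _ = (L * QQ T (n + 2) * T.c (2 * j + 1)) * (1 - T.e (2 * n + 2)) := by
          rw [sub_mul, one_mul, T.ec (by omega : 2 * j + 1 ≤ 2 * n + 2)]
          simp only [mul_sub, mul_one, mul_assoc]
      _ = _ := by
          rw [ih, neg_mul, mul_assoc, show 2 * n + 2 = 2 * (n + 1) by ring, ← QQ_succ]

/-- `k_1 ^ n` times `prod_{j ≤ n} (1 - e_{2j})`: the dual vector of `b`, as a functional -/
def psi (n : ℕ) : End K V := T.k 1 ^ n * QQ T (n + 1)

lemma psi_even {n j : ℕ} (h : j ≤ n) : psi T n * T.c (2 * j) = 0 := by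
  rw [psi, mul_assoc, QQ_even T h, mul_zero]

lemma psi_odd {n j : ℕ} (h : j ≤ n) : psi T (n + 1) * T.c (2 * j + 1) = -psi T n :=
  QQ_odd T h (k1pow_c T n _ (by omega)) (k1pow_c T n _ (by omega)) (k1pow_c T n _ (by omega))

/-- word of small arcs over the empty pattern `Ω` -/
def word (Ω : V) : List ℕ → V
  | [] => Ω
  | i :: l => T.c i (word Ω l)

/-- admissible words: `i_t ≤ 2 (number of later arcs)` (two defects) -/
def Adm : List ℕ → Prop
  | [] => True
  | i :: l => i ≤ 2 * l.length + 2 ∧ Adm l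

/-- **(Z1)** -/
theorem psi_word {Ω : V} (hΩ : T.k 0 Ω = 0) : ∀ l : List ℕ, Adm l →
    psi T l.length (word T Ω l) =
      if ∀ i ∈ l, i % 2 = 1 then (-1 : K) ^ l.length • Ω else 0 := by
  intro l
  induction l with
  | nil =>
    intro _
    have : psi T 0 Ω = Ω := by
      simp only [psi, pow_zero, one_mul, QQ, mul_zero, LinearMap.sub_apply, Module.End.one_apply,
        T.e_def, Module.End.mul_apply, hΩ, map_zero, sub_zero]
    simpa [word] using this
  | cons i l ih =>
    intro h
    obtain ⟨h1, h2⟩ := h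
    rcases Nat.even_or_odd' i with ⟨j, rfl | rfl⟩
    · have h3 := psi_even T (n := l.length + 1) (j := j) (by omega)
      have h4 := congrArg (fun Z : End K V => Z (word T Ω l)) h3
      simp only [Module.End.mul_apply, LinearMap.zero_apply] at h4
      rw [if_neg, List.length_cons, word]
      · exact h4
      · intro h5
        have := h5 (2 * j) List.mem_cons_self
        omega
    · have h3 := psi_odd T (n := l.length) (j := j) (by omega)
      have h4 := congrArg (fun Z : End K V => Z (word T Ω l)) h3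
      simp only [Module.End.mul_apply, LinearMap.neg_apply] at h4
      rw [List.length_cons, word, h4, ih h2]
      by_cases h5 : ∀ i ∈ l, i % 2 = 1
      · rw [if_pos h5, if_pos]
        · rw [pow_succ, mul_neg_one, neg_smul]
        · intro i hi
          rcases List.mem_cons.1 hi with rfl | hi
          · omega
          · exact h5 i hi
      · rw [if_neg h5, if_neg, neg_zero]
        intro h6
        exact h5 fun i hi => h6 i (List.mem_cons_of_mem _ hi)

/-- the row of ones on an admissible word -/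
theorem row_word {Ω : V} : ∀ l : List ℕ, Adm l → (T.k 1 ^ l.length) (word T Ω l) = Ω := by
  intro l
  induction l with
  | nil => intro _; simp [word]
  | cons i l ih =>
    intro h
    have h3 := k1pow_c T l.length i h.1
    have h4 := congrArg (fun Z : End K V => Z (word T Ω l)) h3
    simp only [Module.End.mul_apply] at h4
    rw [List.length_cons, word, h4, ih h.2]

end Pool.Agent.Helper30.Rect
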